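import Mathlib

/-!
# Percolation on Galton-Watson trees: definitions
-/

namespace Q292.GWS

open MeasureTheory ProbabilityTheory Filter Topology

/-- Ulam-Harris addresses; the children of `u` are `u ++ [i]`, `i = 0, 1, …`. -/
abbrev Addr := List ℕ

/-- `v` belongs to the tree with offspring numbers `N`. -/
def inTree (N : Addr → ℕ) (v : Addr) : Prop := ∀ (u : Addr) (i : ℕ), u ++ [i] <+: v → i < N u

/-- All edges between the root and `v` are open; `ω (u ++ [i])` is the state of the edge from `u`
to `u ++ [i]`. -/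
def openTo (ω : Addr → Bool) (v : Addr) : Prop :=
  ∀ (u : Addr) (i : ℕ), u ++ [i] <+: v → ω (u ++ [i]) = true

/-- The open cluster of the root. -/
def cluster (N : Addr → ℕ) (ω : Addr → Bool) : Set Addr := {v | inTree N v ∧ openTo ω v}

/-- Law of the Galton-Watson tree: independent offspring numbers with law `μ`. -/
noncomputable def gwLaw (μ : Measure ℕ) : Measure (Addr → ℕ) := Measure.infinitePi fun _ => μ

/-- Bernoulli percolation. -/
noncomputable def percLaw (p : unitInterval) : Measure (Addr → Bool) :=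
  Measure.infinitePi fun _ => bernoulliMeasure true false p

/-- The quenched survival function `g(T, p)`. -/
noncomputable def quenched (N : Addr → ℕ) (p : ℝ) : ℝ :=
  (percLaw (Set.projIcc 0 1 zero_le_one p)).real {ω | (cluster N ω).Infinite}

/-- The annealed survival function `g(p) = E[g(T, p)]`. -/
noncomputable def annealed (μ : Measure ℕ) (p : ℝ) : ℝ := ∫ N, quenched N p ∂(gwLaw μ)

/-- `f` has an order-`k` expansion at `a` from the right. -/
def HasExpansion (f : ℝ → ℝ) (a : ℝ) (k : ℕ) : Prop :=
  ∃ c : ℕ → ℝ, (fun ε : ℝ => f (a + ε) - ∑ j ∈ Finset.range (k + 1), c j * ε ^ j) =o[𝓝[>] 0]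
    fun ε : ℝ => ε ^ k

/-- `f` is of class `C^k` at `a` from the right. -/
def ClassC (f : ℝ → ℝ) (a : ℝ) (k : ℕ) : Prop :=
  ∃ δ > 0, ContDiffOn ℝ k f (Set.Ico a (a + δ))

end Q292.GWS
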