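import Mathlib
import Pool.Agent.Q292.GWS.Defs

/-!
# Splitting a field indexed by the tree at the root
-/

namespace Q292.GWS

open MeasureTheory ProbabilityTheory Filter Topology

variable {α : Type*} [MeasurableSpace α]

/-- the field without the root -/
def sub (N : Addr → α) (i : ℕ) (w : Addr) : α := N (i :: w)

theorem measurable_sub : Measurable (sub : (Addr → α) → ℕ → Addr → α) :=
  measurable_pi_lambda _ fun _ => measurable_pi_lambda _ fun _ => measurable_pi_apply _

theorem map_sub (μ : Measure α) [IsProbabilityMeasure μ] :
    (Measure.infinitePi fun _ : Addr => μ).map sub =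
      Measure.infinitePi fun _ : ℕ => Measure.infinitePi fun _ : Addr => μ := by
  have hinj : Function.Injective fun p : ℕ × Addr => p.1 :: p.2 := by
    intro p q h
    simp only [List.cons.injEq] at h
    exact Prod.ext h.1 h.2
  have h1 := Measure.map_infinitePi_infinitePi_of_inj (P := fun _ : Addr => μ) hinj
  have h2 := Measure.infinitePi_map_curry (fun (_ : ℕ) (_ : Addr) => μ)
  have h3 := Measure.map_map (μ := Measure.infinitePi fun _ : Addr => μ)
    (MeasurableEquiv.curry ℕ Addr α).measurable
    (f := fun (ω : Addr → α) (i : ℕ × Addr) => ω (i.1 :: i.2))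
    (measurable_pi_lambda _ fun _ => measurable_pi_apply _)
  rw [← h2, ← h1, h3]
  rfl

theorem indep_root (μ : Measure α) [IsProbabilityMeasure μ] :
    IndepFun (fun N : Addr → α => N []) sub (Measure.infinitePi fun _ : Addr => μ) := by
  have hind : iIndep (fun v : Addr => MeasurableSpace.comap (fun N : Addr → α => N v) inferInstance)
      (Measure.infinitePi fun _ : Addr => μ) :=
    (iIndepFun_infinitePi (P := fun _ : Addr => μ) (X := fun _ ω => ω)
      (fun _ => measurable_id)).iIndep
  have h1 := indep_iSup_of_disjoint (fun v => (measurable_pi_apply v).comap_le) hind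
    (S := {[]}) (T := {v | v ≠ []}) (by
      rw [Set.disjoint_singleton_left]
      simp)
  rw [IndepFun_iff_Indep]
  refine indep_of_indep_of_le h1 ?_ ?_
  · exact le_iSup₂_of_le [] (Set.mem_singleton _) le_rfl
  · rw [← measurable_iff_comap_le]
    refine @measurable_pi_lambda _ _ _ (_) _ _ fun i => ?_
    refine @measurable_pi_lambda _ _ _ (_) _ _ fun w => ?_
    rw [measurable_iff_comap_le]
    exact le_iSup₂_of_le (i :: w) (by simp) le_rfl

theorem map_root (μ : Measure α) [IsProbabilityMeasure μ] :
    (Measure.infinitePi fun _ : Addr => μ).map (fun N => N []) = μ :=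
  Measure.infinitePi_map_eval (fun _ : Addr => μ) []

end Q292.GWS
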