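import Mathlib
import Pool.Agent.Q292.GWS.Split

/-!
# Reaching level `n`
-/

namespace Q292.GWS

open MeasureTheory ProbabilityTheory Filter Topology

/-- the cluster reaches level `n` -/
def reach (N : Addr → ℕ) (ω : Addr → Bool) (n : ℕ) : Prop := ∃ v ∈ cluster N ω, v.length = n

theorem inTree_cons (N : Addr → ℕ) (i : ℕ) (w : Addr) :
    inTree N (i :: w) ↔ i < N [] ∧ inTree (sub N i) w := by
  constructor
  · intro h
    refine ⟨h [] i ?_, fun u k hk => h (i :: u) k ?_⟩
    · simp
    · rw [List.cons_append, List.cons_prefix_cons]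
      exact ⟨rfl, hk⟩
  · rintro ⟨h1, h2⟩ u k hk
    cases u with
    | nil =>
      rw [List.nil_append, List.cons_prefix_cons] at hk
      rw [hk.1]
      exact h1
    | cons j u =>
      rw [List.cons_append, List.cons_prefix_cons] at hk
      rw [hk.1]
      exact h2 u k hk.2

theorem openTo_cons (ω : Addr → Bool) (i : ℕ) (w : Addr) :
    openTo ω (i :: w) ↔ ω [i] = true ∧ openTo (sub ω i) w := by
  constructor
  · intro h
    refine ⟨h [] i ?_, fun u k hk => h (i :: u) k ?_⟩
    · simp
    · rw [List.cons_append, List.cons_prefix_cons]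
      exact ⟨rfl, hk⟩
  · rintro ⟨h1, h2⟩ u k hk
    cases u with
    | nil =>
      rw [List.nil_append, List.cons_prefix_cons] at hk
      rw [List.nil_append, hk.1]
      exact h1
    | cons j u =>
      rw [List.cons_append, List.cons_prefix_cons] at hk
      rw [List.cons_append, hk.1]
      exact h2 u k hk.2

theorem cluster_cons (N : Addr → ℕ) (ω : Addr → Bool) (i : ℕ) (w : Addr) :
    (i :: w) ∈ cluster N ω ↔ i < N [] ∧ ω [i] = true ∧ w ∈ cluster (sub N i) (sub ω i) := by
  change (inTree N (i :: w) ∧ openTo ω (i :: w)) ↔ _ ∧ _ ∧ (inTree _ w ∧ openTo _ w)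
  rw [inTree_cons, openTo_cons]
  tauto

theorem nil_mem_cluster (N : Addr → ℕ) (ω : Addr → Bool) : ([] : Addr) ∈ cluster N ω := by
  constructor <;>
  · intro u i h
    have := List.prefix_nil.1 h
    simp at this

theorem reach_zero (N : Addr → ℕ) (ω : Addr → Bool) : reach N ω 0 :=
  ⟨[], nil_mem_cluster N ω, rfl⟩

theorem reach_succ (N : Addr → ℕ) (ω : Addr → Bool) (n : ℕ) :
    reach N ω (n + 1) ↔ ∃ i < N [], ω [i] = true ∧ reach (sub N i) (sub ω i) n := by
  constructor
  · rintro ⟨v, hv, hl⟩
    cases v with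
    | nil => simp at hl
    | cons i w =>
      rw [cluster_cons] at hv
      exact ⟨i, hv.1, hv.2.1, w, hv.2.2, by simpa using hl⟩
  · rintro ⟨i, h1, h2, w, h3, h4⟩
    exact ⟨i :: w, (cluster_cons N ω i w).2 ⟨h1, h2, h3⟩, by simp [h4]⟩

theorem reach_anti (N : Addr → ℕ) (ω : Addr → Bool) (n : ℕ) (h : reach N ω (n + 1)) :
    reach N ω n := by
  induction n generalizing N ω with
  | zero => exact reach_zero N ω
  | succ n ih =>
    rw [reach_succ] at h ⊢
    obtain ⟨i, h1, h2, h3⟩ := h
    exact ⟨i, h1, h2, ih _ _ h3⟩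

theorem reach_mono (N : Addr → ℕ) (ω : Addr → Bool) {n m : ℕ} (hnm : n ≤ m) (h : reach N ω m) :
    reach N ω n := by
  induction m, hnm using Nat.le_induction with
  | base => exact h
  | succ m _ ih => exact ih (reach_anti N ω m h)

theorem level_finite (n : ℕ) (N : Addr → ℕ) : {v : Addr | inTree N v ∧ v.length = n}.Finite := by
  induction n generalizing N with
  | zero =>
    refine (Set.finite_singleton ([] : Addr)).subset ?_
    rintro v ⟨-, hv⟩
    rw [List.length_eq_zero_iff] at hv
    exact hv
  | succ n ih =>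
    have h1 : (⋃ i ∈ Finset.range (N []), (List.cons i) '' {w : Addr | inTree (sub N i) w ∧
        w.length = n}).Finite :=
      Set.Finite.biUnion (Finset.finite_toSet _) fun i _ => (ih (sub N i)).image _
    refine h1.subset ?_
    rintro v ⟨hv, hl⟩
    cases v with
    | nil => simp at hl
    | cons i w =>
      rw [inTree_cons] at hv
      simp only [Set.mem_iUnion]
      exact ⟨i, Finset.mem_range.2 hv.1, w, ⟨hv.2, by simpa using hl⟩, rfl⟩

theorem infinite_iff (N : Addr → ℕ) (ω : Addr → Bool) :
    (cluster N ω).Infinite ↔ ∀ n, reach N ω n := by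
  constructor
  · intro h n
    by_contra hcon
    refine h ?_
    have h1 : (⋃ k ∈ Finset.range n, {v : Addr | inTree N v ∧ v.length = k}).Finite :=
      Set.Finite.biUnion (Finset.finite_toSet _) fun k _ => level_finite k N
    refine h1.subset ?_
    intro v hv
    simp only [Set.mem_iUnion]
    refine ⟨v.length, Finset.mem_range.2 ?_, hv.1, rfl⟩
    by_contra hc
    exact hcon (reach_mono N ω (not_lt.1 hc) ⟨v, hv, rfl⟩)
  · intro h hfin
    obtain ⟨K, hK⟩ : ∃ K, ∀ v ∈ cluster N ω, v.length ≤ K := by
      obtain ⟨K, hK⟩ := (hfin.image List.length).bddAbove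
      exact ⟨K, fun v hv => hK ⟨v, hv, rfl⟩⟩
    obtain ⟨v, hv, hl⟩ := h (K + 1)
    have := hK v hv
    omega

/-! ### Measurability -/

theorem meas_cluster (v : Addr) :
    MeasurableSet {x : (Addr → ℕ) × (Addr → Bool) | v ∈ cluster x.1 x.2} := by
  induction v with
  | nil =>
    have : {x : (Addr → ℕ) × (Addr → Bool) | ([] : Addr) ∈ cluster x.1 x.2} = Set.univ := by
      ext x
      simp only [Set.mem_ofPred_eq, Set.mem_univ, iff_true]
      exact nil_mem_cluster x.1 x.2
    rw [this]
    exact MeasurableSet.univ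
  | cons i w ih =>
    have : {x : (Addr → ℕ) × (Addr → Bool) | (i :: w) ∈ cluster x.1 x.2} =
        ((fun x : (Addr → ℕ) × (Addr → Bool) => x.1 []) ⁻¹' {k | i < k}) ∩
        (((fun x : (Addr → ℕ) × (Addr → Bool) => x.2 [i]) ⁻¹' {true}) ∩
        ((fun x : (Addr → ℕ) × (Addr → Bool) => (sub x.1 i, sub x.2 i)) ⁻¹'
          {x | w ∈ cluster x.1 x.2})) := by
      ext x
      simp only [Set.mem_ofPred_eq, Set.mem_inter_iff, Set.mem_preimage, Set.mem_singleton_iff]
      exact cluster_cons x.1 x.2 i w
    rw [this]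
    refine MeasurableSet.inter ?_ (MeasurableSet.inter ?_ ?_)
    · exact ((measurable_pi_apply _).comp measurable_fst) MeasurableSet.of_discrete
    · exact ((measurable_pi_apply _).comp measurable_snd) MeasurableSet.of_discrete
    · refine Measurable.prodMk ?_ ?_ ih
      · exact (measurable_pi_apply i).comp (measurable_sub.comp measurable_fst)
      · exact (measurable_pi_apply i).comp (measurable_sub.comp measurable_snd)

theorem meas_reach (n : ℕ) :
    MeasurableSet {x : (Addr → ℕ) × (Addr → Bool) | reach x.1 x.2 n} := by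
  have : {x : (Addr → ℕ) × (Addr → Bool) | reach x.1 x.2 n} =
      ⋃ v : Addr, ⋃ _ : v.length = n, {x | v ∈ cluster x.1 x.2} := by
    ext x
    simp only [reach, Set.mem_ofPred_eq, Set.mem_iUnion]
    constructor
    · rintro ⟨v, h1, h2⟩
      exact ⟨v, h2, h1⟩
    · rintro ⟨v, h2, h1⟩
      exact ⟨v, h1, h2⟩
  rw [this]
  exact MeasurableSet.iUnion fun v => MeasurableSet.iUnion fun _ => meas_cluster v

theorem meas_reach_right (N : Addr → ℕ) (n : ℕ) : MeasurableSet {ω : Addr → Bool | reach N ω n} :=
  measurable_prodMk_left (meas_reach n)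

instance (p : unitInterval) : IsProbabilityMeasure (percLaw p) := by
  unfold percLaw
  infer_instance

instance (μ : Measure ℕ) [IsProbabilityMeasure μ] : IsProbabilityMeasure (gwLaw μ) := by
  unfold gwLaw
  infer_instance

/-- probability of not reaching level `n` -/
noncomputable def q (p : unitInterval) (n : ℕ) (N : Addr → ℕ) : ℝ :=
  (percLaw p).real {ω | ¬ reach N ω n}

theorem q_measurable (p : unitInterval) (n : ℕ) : Measurable (q p n) := by
  have h := measurable_measure_prodMk_left (ν := percLaw p) (meas_reach n).compl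
  exact h.ennreal_toReal

theorem q_nonneg (p : unitInterval) (n : ℕ) (N : Addr → ℕ) : 0 ≤ q p n N := measureReal_nonneg

theorem q_le_one (p : unitInterval) (n : ℕ) (N : Addr → ℕ) : q p n N ≤ 1 := measureReal_le_one

theorem q_zero (p : unitInterval) (N : Addr → ℕ) : q p 0 N = 0 := by
  have : {ω : Addr → Bool | ¬ reach N ω 0} = ∅ := by
    ext ω
    simp [reach_zero]
  rw [q, this]
  simp

theorem bern_real_true (p : unitInterval) :
    (bernoulliMeasure true false p).real {true} = p := by
  rw [bernoulliMeasure_real_apply_of_mem_of_notMem p (measurableSet_singleton _) (by simp)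
    (by simp)]

theorem meas_edge_reach (N : Addr → ℕ) (n : ℕ) :
    MeasurableSet {ω : Addr → Bool | ω [] = true ∧ reach N ω n} := by
  have h : MeasurableSet ((fun ω : Addr → Bool => ω []) ⁻¹' {true} ∩ {ω | reach N ω n}) :=
    ((measurable_pi_apply []) (measurableSet_singleton true)).inter (meas_reach_right N n)
  exact h

/-- one step through an edge -/
theorem edge_step (p : unitInterval) (n : ℕ) (N : Addr → ℕ) :
    (percLaw p).real {ω | ¬ (ω [] = true ∧ reach N ω n)} = 1 - p * (1 - q p n N) := by
  have h1 : MeasurableSet {ω : Addr → Bool | ω [] = true ∧ reach N ω n} := meas_edge_reach N n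
  have h2 := probReal_compl_eq_one_sub (μ := percLaw p) h1
  have h3 : {ω : Addr → Bool | ω [] = true ∧ reach N ω n}ᶜ =
      {ω | ¬ (ω [] = true ∧ reach N ω n)} := rfl
  rw [h3] at h2
  rw [h2]
  congr 1
  -- independence of the root from the rest
  have hR : ∃ B : Set (ℕ → Addr → Bool), MeasurableSet B ∧
      {ω : Addr → Bool | reach N ω n} = sub ⁻¹' B := by
    cases n with
    | zero =>
      refine ⟨Set.univ, MeasurableSet.univ, ?_⟩
      ext ω
      simp [reach_zero]
    | succ n =>
      refine ⟨⋃ i ∈ Finset.range (N []), (fun f : ℕ → Addr → Bool => f i) ⁻¹'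
        {ω | ω [] = true ∧ reach (sub N i) ω n}, ?_, ?_⟩
      · refine MeasurableSet.biUnion (Finset.countable_toSet _) fun i _ => ?_
        exact (measurable_pi_apply i) (meas_edge_reach (sub N i) n)
      · ext ω
        simp only [Set.mem_ofPred_eq, Set.mem_preimage, Set.mem_iUnion, Finset.mem_range]
        rw [reach_succ]
        constructor
        · rintro ⟨i, h1, h2, h3⟩
          exact ⟨i, h1, h2, h3⟩
        · rintro ⟨i, h1, h2, h3⟩
          exact ⟨i, h1, h2, h3⟩
  obtain ⟨B, hB, hBeq⟩ := hR
  have hind := (indep_root (bernoulliMeasure true false p)).measure_inter_preimage_eq_mul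
    {true} B (measurableSet_singleton _) hB
  have h4 : {ω : Addr → Bool | ω [] = true ∧ reach N ω n} =
      (fun N : Addr → Bool => N []) ⁻¹' {true} ∩ sub ⁻¹' B := by
    rw [← hBeq]
    rfl
  have h5 : (percLaw p).real ((fun N : Addr → Bool => N []) ⁻¹' {true}) = p := by
    have h9 := map_root (bernoulliMeasure true false p)
    have h10 : (bernoulliMeasure true false p) {true} =
        (percLaw p) ((fun N : Addr → Bool => N []) ⁻¹' {true}) := by
      conv_lhs => rw [← h9]
      rw [Measure.map_apply (measurable_pi_apply _) (measurableSet_singleton _)]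
      rfl
    rw [← bern_real_true p, Measure.real, Measure.real, h10]
  have h6 : (percLaw p).real (sub ⁻¹' B) = 1 - q p n N := by
    have h7 := probReal_compl_eq_one_sub (μ := percLaw p) (meas_reach_right N n)
    rw [← hBeq]
    have h8 : q p n N = (percLaw p).real {ω | reach N ω n}ᶜ := rfl
    rw [h8, h7]
    ring
  rw [h4, ← h5, ← h6, Measure.real, Measure.real, Measure.real, ← ENNReal.toReal_mul]
  exact congrArg ENNReal.toReal hind

/-- The quenched recursion. -/
theorem q_succ (p : unitInterval) (n : ℕ) (N : Addr → ℕ) :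
    q p (n + 1) N = ∏ i ∈ Finset.range (N []), (1 - p * (1 - q p n (sub N i))) := by
  have h1 : {ω : Addr → Bool | ¬ reach N ω (n + 1)} =
      sub ⁻¹' (Set.pi (Finset.range (N [])) fun i => {ω | ¬ (ω [] = true ∧
        reach (sub N i) ω n)}) := by
    ext ω
    simp only [Set.mem_ofPred_eq, Set.mem_preimage, Set.mem_pi, Finset.mem_coe, Finset.mem_range]
    rw [reach_succ]
    push Not
    constructor
    · intro h i hi h2
      exact h i hi h2
    · intro h i hi h2
      exact h i hi h2
  have hm : ∀ i, MeasurableSet {ω : Addr → Bool | ¬ (ω [] = true ∧ reach (sub N i) ω n)} :=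
    fun i => (meas_edge_reach (sub N i) n).compl
  have h2 : (percLaw p) (sub ⁻¹' (Set.pi (Finset.range (N [])) fun i => {ω | ¬ (ω [] = true ∧
        reach (sub N i) ω n)})) = ∏ i ∈ Finset.range (N []), percLaw p {ω | ¬ (ω [] = true ∧
        reach (sub N i) ω n)} := by
    have h3 := map_sub (bernoulliMeasure true false p)
    have h4 : MeasurableSet (Set.pi ((Finset.range (N []) : Finset ℕ) : Set ℕ) fun i =>
        {ω : Addr → Bool | ¬ (ω [] = true ∧ reach (sub N i) ω n)}) :=
      MeasurableSet.pi (Finset.countable_toSet _) fun i _ => hm i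
    rw [← Measure.map_apply measurable_sub h4]
    unfold percLaw
    rw [h3, Measure.infinitePi_pi _ (fun i _ => hm i)]
  rw [q, h1, Measure.real, h2, ENNReal.toReal_prod]
  exact Finset.prod_congr rfl fun i _ => edge_step p n (sub N i)

end Q292.GWS
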