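import Mathlib
import Pool.Agent.Q292.GWS.Reach

/-!
# The annealed recursion
-/

namespace Q292.GWS

open MeasureTheory ProbabilityTheory Filter Topology

/-- annealed probability of not reaching level `n` -/
noncomputable def un (μ : Measure ℕ) (p : unitInterval) (n : ℕ) : ℝ := ∫ N, q p n N ∂(gwLaw μ)

variable (μ : Measure ℕ) [IsProbabilityMeasure μ] (p : unitInterval)

theorem q_integrable (n : ℕ) : Integrable (q p n) (gwLaw μ) := by
  refine Integrable.of_bound (q_measurable p n).aestronglyMeasurable 1 (ae_of_all _ fun N => ?_)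
  rw [Real.norm_eq_abs, abs_of_nonneg (q_nonneg p n N)]
  exact q_le_one p n N

omit [IsProbabilityMeasure μ] in
theorem un_nonneg (n : ℕ) : 0 ≤ un μ p n := integral_nonneg fun N => q_nonneg p n N

theorem un_le_one (n : ℕ) : un μ p n ≤ 1 := by
  have h := integral_mono (q_integrable μ p n) (integrable_const (1 : ℝ)) fun N => q_le_one p n N
  simpa [un] using h

omit [IsProbabilityMeasure μ] in
theorem un_zero : un μ p 0 = 0 := by
  unfold un
  simp [q_zero]

theorem phi_mem {x : ℝ} (h0 : 0 ≤ x) (h1 : x ≤ 1) :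
    0 ≤ 1 - (p : ℝ) * (1 - x) ∧ 1 - (p : ℝ) * (1 - x) ≤ 1 := by
  have hp0 := p.2.1
  have hp1 := p.2.2
  constructor
  · nlinarith
  · nlinarith

theorem map_pair : (gwLaw μ).map (fun N => (N [], sub N)) =
    μ.prod (Measure.infinitePi fun _ : ℕ => gwLaw μ) := by
  have h := (indep_root μ).map_prod_eq_prod_map_map (measurable_pi_apply _).aemeasurable
    measurable_sub.aemeasurable
  rw [map_root, map_sub] at h
  exact h

theorem integral_prod_sub (φ : (Addr → ℕ) → ℝ) (hφ : Measurable φ) (k : ℕ) :
    ∫ f, ∏ i ∈ Finset.range k, φ (f i) ∂(Measure.infinitePi fun _ : ℕ => gwLaw μ) =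
      (∫ N, φ N ∂(gwLaw μ)) ^ k := by
  have hind : iIndepFun (fun (i : Finset.range k) (f : ℕ → Addr → ℕ) => f i)
      (Measure.infinitePi fun _ : ℕ => gwLaw μ) := by
    have h := iIndepFun_infinitePi (P := fun _ : ℕ => gwLaw μ) (X := fun _ ω => ω)
      (fun _ => measurable_id)
    exact h.precomp Subtype.val_injective
  have h1 := hind.integral_fun_prod_comp (𝕜 := ℝ) (f := fun _ => φ)
    (fun i => (measurable_pi_apply _).aemeasurable) (fun i => hφ.aestronglyMeasurable)
  have h2 : ∀ i : ℕ, ∫ f : ℕ → Addr → ℕ, φ (f i) ∂(Measure.infinitePi fun _ : ℕ => gwLaw μ) =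
      ∫ N, φ N ∂(gwLaw μ) := by
    intro i
    conv_rhs => rw [← Measure.infinitePi_map_eval (fun _ : ℕ => gwLaw μ) i]
    rw [integral_map (measurable_pi_apply _).aemeasurable hφ.aestronglyMeasurable]
  simp only [h2, Finset.prod_const, Finset.card_univ, Fintype.card_coe, Finset.card_range] at h1
  rw [← h1]
  refine integral_congr_ae (ae_of_all _ fun f => ?_)
  exact (Finset.prod_coe_sort (Finset.range k) fun i => φ (f i)).symm

/-- The annealed recursion. -/
theorem un_succ (n : ℕ) : un μ p (n + 1) = ∫ k, (1 - (p : ℝ) * (1 - un μ p n)) ^ k ∂μ := by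
  set φ : (Addr → ℕ) → ℝ := fun M => 1 - (p : ℝ) * (1 - q p n M) with hφdef
  have hφ : Measurable φ := measurable_const.sub (measurable_const.mul
    (measurable_const.sub (q_measurable p n)))
  have hφ0 : ∀ M, 0 ≤ φ M ∧ φ M ≤ 1 := fun M => phi_mem p (q_nonneg p n M) (q_le_one p n M)
  set G : ℕ × (ℕ → Addr → ℕ) → ℝ := fun z => ∏ i ∈ Finset.range z.1, φ (z.2 i) with hGdef
  have hG : Measurable G := by
    refine measurable_from_prod_countable_right fun k => ?_
    change Measurable fun y : ℕ → Addr → ℕ => ∏ i ∈ Finset.range k, φ (y i)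
    exact Finset.measurable_fun_prod _ fun i _ => hφ.comp (measurable_pi_apply i)
  have hG1 : ∀ z, ‖G z‖ ≤ 1 := by
    intro z
    rw [Real.norm_eq_abs, abs_of_nonneg (Finset.prod_nonneg fun i _ => (hφ0 _).1)]
    exact Finset.prod_le_one (fun i _ => (hφ0 _).1) fun i _ => (hφ0 _).2
  have hmeas : Measurable fun N : Addr → ℕ => (N [], sub N) :=
    (measurable_pi_apply _).prodMk measurable_sub
  have h1 : un μ p (n + 1) = ∫ z, G z ∂(μ.prod (Measure.infinitePi fun _ : ℕ => gwLaw μ)) := by
    rw [← map_pair, integral_map hmeas.aemeasurable hG.aestronglyMeasurable]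
    unfold un
    refine integral_congr_ae (ae_of_all _ fun N => ?_)
    exact q_succ p n N
  rw [h1, integral_prod _ (Integrable.of_bound hG.aestronglyMeasurable 1 (ae_of_all _ hG1))]
  refine integral_congr_ae (ae_of_all _ fun k => ?_)
  change ∫ f, ∏ i ∈ Finset.range k, φ (f i) ∂(Measure.infinitePi fun _ : ℕ => gwLaw μ) = _
  rw [integral_prod_sub μ φ hφ k]
  congr 1
  have h2 : ∫ N, φ N ∂(gwLaw μ) = 1 - (p : ℝ) * (1 - ∫ N, q p n N ∂(gwLaw μ)) := by
    have h3 : Integrable (fun N => 1 - q p n N) (gwLaw μ) :=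
      (integrable_const _).sub (q_integrable μ p n)
    have h4 : ∫ N, (1 - q p n N) ∂(gwLaw μ) = 1 - ∫ N, q p n N ∂(gwLaw μ) := by
      rw [integral_sub (integrable_const _) (q_integrable μ p n)]
      simp
    change ∫ N, (1 - (p : ℝ) * (1 - q p n N)) ∂(gwLaw μ) = _
    rw [integral_sub (integrable_const _) (h3.const_mul _), integral_const_mul, h4]
    simp
  exact h2

theorem tendsto_q (N : Addr → ℕ) : Tendsto (fun n => q p n N) atTop
    (𝓝 (1 - (percLaw p).real {ω | (cluster N ω).Infinite})) := by
  have h1 : Tendsto (fun n => (percLaw p) {ω | reach N ω n}) atTop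
      (𝓝 ((percLaw p) (⋂ n, {ω | reach N ω n}))) := by
    refine tendsto_measure_iInter_atTop (fun n => (meas_reach_right N n).nullMeasurableSet) ?_
      ⟨0, measure_ne_top _ _⟩
    intro n m hnm ω hω
    exact reach_mono N ω hnm hω
  have h2 : (⋂ n, {ω | reach N ω n}) = {ω | (cluster N ω).Infinite} := by
    ext ω
    simp only [Set.mem_iInter, Set.mem_ofPred_eq]
    exact (infinite_iff N ω).symm
  rw [h2] at h1
  have h3 := (ENNReal.tendsto_toReal (measure_ne_top _ _)).comp h1
  have h4 := h3.const_sub 1
  refine h4.congr fun n => ?_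
  exact (probReal_compl_eq_one_sub (μ := percLaw p) (meas_reach_right N n)).symm

theorem tendsto_un : Tendsto (un μ p) atTop (𝓝 (1 - annealed μ p)) := by
  have hp : Set.projIcc (0 : ℝ) 1 zero_le_one p = p := Set.projIcc_val _ _
  have h1 : Tendsto (un μ p) atTop (𝓝 (∫ N, (1 - quenched N p) ∂(gwLaw μ))) := by
    refine tendsto_integral_of_dominated_convergence (fun _ => 1)
      (fun n => (q_measurable p n).aestronglyMeasurable) (integrable_const _)
      (fun n => ae_of_all _ fun N => ?_) (ae_of_all _ fun N => ?_)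
    · rw [Real.norm_eq_abs, abs_of_nonneg (q_nonneg p n N)]
      exact q_le_one p n N
    · have := tendsto_q p N
      unfold quenched
      rw [hp]
      exact this
  have h2 : Measurable fun N => quenched N p := by
    have h3 : Measurable fun N => 1 - quenched N p := by
      refine measurable_of_tendsto_metrizable (f := fun n => q p n) (fun n => q_measurable p n) ?_
      rw [tendsto_pi_nhds]
      intro N
      have := tendsto_q p N
      unfold quenched
      rw [hp]
      exact this
    have h4 : (fun N => quenched N p) = fun N => 1 - (1 - quenched N p) := by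
      funext N
      ring
    rw [h4]
    exact measurable_const.sub h3
  have h5 : Integrable (fun N => quenched N p) (gwLaw μ) := by
    refine Integrable.of_bound h2.aestronglyMeasurable 1 (ae_of_all _ fun N => ?_)
    rw [Real.norm_eq_abs, quenched, abs_of_nonneg measureReal_nonneg]
    exact measureReal_le_one
  rw [integral_sub (integrable_const _) h5] at h1
  simpa [annealed] using h1

end Q292.GWS
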