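import Mathlib
import Pool.Agent.Q292.GWS.Annealed

/-!
# The annealed survival function through an implicit equation
-/

namespace Q292.GWS

open MeasureTheory ProbabilityTheory Filter Topology

/-- `h k s = ∑_{i<k} (1 - (1-s)^i)` -/
noncomputable def hk (k : ℕ) (s : ℝ) : ℝ := k - ∑ i ∈ Finset.range k, (1 - s) ^ i

theorem hk_mul (k : ℕ) (s : ℝ) : s * (k - hk k s) = 1 - (1 - s) ^ k := by
  have h := mul_neg_geom_sum (1 - s) k
  unfold hk
  have h1 : 1 - (1 - s) = s := by ring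
  rw [h1] at h
  rw [← h]
  ring

theorem hk_zero (k : ℕ) : hk k 0 = 0 := by
  simp [hk]

theorem hk_two (s : ℝ) : hk 2 s = s := by
  simp [hk, Finset.sum_range_succ]
  ring

theorem hk_mono (k : ℕ) {s t : ℝ} (hs : s ≤ t) (ht : t ≤ 1) : hk k s ≤ hk k t := by
  unfold hk
  have : ∑ i ∈ Finset.range k, (1 - t) ^ i ≤ ∑ i ∈ Finset.range k, (1 - s) ^ i :=
    Finset.sum_le_sum fun i _ => pow_le_pow_left₀ (by linarith) (by linarith) i
  linarith

theorem hk_nonneg (k : ℕ) {s : ℝ} (hs : 0 ≤ s) (ht : s ≤ 1) : 0 ≤ hk k s := by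
  rw [← hk_zero k]
  exact hk_mono k hs ht

theorem hk_le (k : ℕ) {s : ℝ} (ht : s ≤ 1) : hk k s ≤ k := by
  unfold hk
  have : 0 ≤ ∑ i ∈ Finset.range k, (1 - s) ^ i :=
    Finset.sum_nonneg fun i _ => pow_nonneg (by linarith) i
  linarith

theorem pow_sub_le {x y : ℝ} (hy : 0 ≤ y) (hxy : y ≤ x) (hx : x ≤ 1) (i : ℕ) :
    x ^ i - y ^ i ≤ i * (x - y) := by
  induction i with
  | zero => simp
  | succ i ih =>
    have h1 : x ^ (i + 1) - y ^ (i + 1) = x * (x ^ i - y ^ i) + (x - y) * y ^ i := by ring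
    have h2 : 0 ≤ x ^ i - y ^ i := sub_nonneg.2 (pow_le_pow_left₀ hy hxy i)
    have h3 : x * (x ^ i - y ^ i) ≤ 1 * (x ^ i - y ^ i) := mul_le_mul_of_nonneg_right hx h2
    have h4 : y ^ i ≤ 1 := pow_le_one₀ hy (hxy.trans hx)
    have h5 : (x - y) * y ^ i ≤ (x - y) * 1 := mul_le_mul_of_nonneg_left h4 (by linarith)
    push_cast
    rw [h1]
    linarith

theorem hk_lip (k : ℕ) {s t : ℝ} (hs0 : 0 ≤ s) (hs : s ≤ t) (ht : t ≤ 1) :
    hk k t - hk k s ≤ (k : ℝ) ^ 2 * (t - s) := by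
  unfold hk
  have h1 : ∑ i ∈ Finset.range k, ((1 - s) ^ i - (1 - t) ^ i) ≤
      ∑ i ∈ Finset.range k, (k : ℝ) * (t - s) := by
    refine Finset.sum_le_sum fun i hi => ?_
    have h2 := pow_sub_le (x := 1 - s) (y := 1 - t) (by linarith) (by linarith) (by linarith) i
    have h3 : (i : ℝ) ≤ k := by exact_mod_cast (Finset.mem_range.1 hi).le
    have h4 : (i : ℝ) * (t - s) ≤ k * (t - s) := mul_le_mul_of_nonneg_right h3 (by linarith)
    have h5 : 1 - s - (1 - t) = t - s := by ring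
    rw [h5] at h2
    linarith
  rw [Finset.sum_sub_distrib, Finset.sum_const, Finset.card_range, nsmul_eq_mul] at h1
  have h6 : (k : ℝ) * (k * (t - s)) = (k : ℝ) ^ 2 * (t - s) := by ring
  linarith

theorem geom_le (k : ℕ) {s : ℝ} (hs0 : 0 < s) (ht : s ≤ 1) :
    ∑ i ∈ Finset.range k, (1 - s) ^ i ≤ 1 / s := by
  have h := mul_neg_geom_sum (1 - s) k
  have h1 : 1 - (1 - s) = s := by ring
  rw [h1] at h
  rw [le_div_iff₀ hs0, mul_comm, h]
  have : 0 ≤ (1 - s) ^ k := pow_nonneg (by linarith) k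
  linarith

theorem hk_ge (k : ℕ) {s : ℝ} (hs0 : 0 < s) (ht : s ≤ 1) : k - 1 / s ≤ hk k s := by
  unfold hk
  have := geom_le k hs0 ht
  linarith

theorem hk_diff (k : ℕ) {s t : ℝ} (hs0 : 0 < s) (hst : s ≤ t) (ht : t ≤ 1) :
    hk k t - hk k s ≤ 1 / s := by
  unfold hk
  have h1 := geom_le k hs0 (hst.trans ht)
  have h2 : 0 ≤ ∑ i ∈ Finset.range k, (1 - t) ^ i :=
    Finset.sum_nonneg fun i _ => pow_nonneg (by linarith) i
  linarith

/-- the function `ψ` -/
noncomputable def psi (μ : Measure ℕ) (s : ℝ) : ℝ := ∫ k, hk k s ∂μ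

variable (μ : Measure ℕ) [IsProbabilityMeasure μ]

omit [IsProbabilityMeasure μ] in
theorem hk_integrable (hI : Integrable (fun k : ℕ => (k : ℝ)) μ) {s : ℝ} (hs : 0 ≤ s)
    (ht : s ≤ 1) : Integrable (fun k => hk k s) μ := by
  refine hI.mono' (measurable_of_countable _).aestronglyMeasurable (ae_of_all _ fun k => ?_)
  rw [Real.norm_eq_abs, abs_of_nonneg (hk_nonneg k hs ht)]
  exact hk_le k ht

omit [IsProbabilityMeasure μ] in
theorem psi_zero : psi μ 0 = 0 := by
  simp [psi, hk_zero]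

omit [IsProbabilityMeasure μ] in
theorem psi_cont (hI : Integrable (fun k : ℕ => (k : ℝ)) μ) :
    ContinuousOn (psi μ) (Set.Icc 0 1) := by
  refine continuousOn_of_dominated (bound := fun k : ℕ => (k : ℝ)) (fun s hs => ?_)
    (fun s hs => ae_of_all _ fun k => ?_) hI (ae_of_all _ fun k => ?_)
  · exact (measurable_of_countable _).aestronglyMeasurable
  · rw [Real.norm_eq_abs, abs_of_nonneg (hk_nonneg k hs.1 hs.2)]
    exact hk_le k hs.2
  · unfold hk
    fun_prop

theorem pow_integrable {x : ℝ} (h0 : 0 ≤ x) (h1 : x ≤ 1) : Integrable (fun k => x ^ k) μ := by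
  refine Integrable.of_bound (measurable_of_countable _).aestronglyMeasurable 1
    (ae_of_all _ fun k => ?_)
  rw [Real.norm_eq_abs, abs_of_nonneg (pow_nonneg h0 k)]
  exact pow_le_one₀ h0 h1

theorem psi_mul (hI : Integrable (fun k : ℕ => (k : ℝ)) μ) {s : ℝ} (hs : 0 ≤ s) (ht : s ≤ 1) :
    s * ((∫ k : ℕ, (k : ℝ) ∂μ) - psi μ s) = 1 - ∫ k, (1 - s) ^ k ∂μ := by
  have h1 : ∫ k : ℕ, s * (k - hk k s) ∂μ = ∫ k, (1 - (1 - s) ^ k) ∂μ :=
    integral_congr_ae (ae_of_all _ fun k => hk_mul k s)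
  rw [integral_const_mul, integral_sub hI (hk_integrable μ hI hs ht),
    integral_sub (integrable_const _) (pow_integrable μ (by linarith) (by linarith))] at h1
  simpa [psi] using h1

omit [IsProbabilityMeasure μ] in
theorem annealed_nonneg (p : ℝ) : 0 ≤ annealed μ p :=
  integral_nonneg fun _ => measureReal_nonneg

theorem annealed_le_one (p : unitInterval) : annealed μ p ≤ 1 := by
  have h := ge_of_tendsto' (tendsto_un μ p) fun n => un_nonneg μ p n
  linarith

/-- fixed point equation -/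
theorem fixed (p : unitInterval) :
    ∫ k, (1 - (p : ℝ) * annealed μ p) ^ k ∂μ = 1 - annealed μ p := by
  have h1 := tendsto_un μ p
  have hC : ContinuousOn (fun x : ℝ => ∫ k, (1 - (p : ℝ) * (1 - x)) ^ k ∂μ) (Set.Icc 0 1) := by
    refine continuousOn_of_dominated (bound := fun _ : ℕ => (1 : ℝ)) (fun s hs => ?_)
      (fun s hs => ae_of_all _ fun k => ?_) (integrable_const _) (ae_of_all _ fun k => ?_)
    · exact (measurable_of_countable _).aestronglyMeasurable
    · have := phi_mem p hs.1 hs.2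
      rw [Real.norm_eq_abs, abs_of_nonneg (pow_nonneg this.1 k)]
      exact pow_le_one₀ this.1 this.2
    · fun_prop
  have hmem : 1 - annealed μ p ∈ Set.Icc (0 : ℝ) 1 :=
    ⟨by linarith [annealed_le_one μ p], by linarith [annealed_nonneg μ (p : ℝ)]⟩
  have h2 : Tendsto (fun n => ∫ k, (1 - (p : ℝ) * (1 - un μ p n)) ^ k ∂μ) atTop
      (𝓝 (∫ k, (1 - (p : ℝ) * (1 - (1 - annealed μ p))) ^ k ∂μ)) := by
    have h3 := (hC _ hmem).tendsto
    refine h3.comp ?_
    rw [tendsto_nhdsWithin_iff]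
    exact ⟨h1, Eventually.of_forall fun n => ⟨un_nonneg μ p n, un_le_one μ p n⟩⟩
  have h4 : Tendsto (fun n => un μ p (n + 1)) atTop (𝓝 (1 - annealed μ p)) :=
    (tendsto_add_atTop_iff_nat 1).2 h1
  have h5 := tendsto_nhds_unique (h2.congr fun n => (un_succ μ p n).symm) h4
  rw [← h5]
  congr 1
  funext k
  ring_nf

/-- `1 - g` is the smallest fixed point -/
theorem smallest (p : unitInterval) {x : ℝ} (hx0 : 0 ≤ x) (hx1 : x ≤ 1)
    (hx : ∫ k, (1 - (p : ℝ) * (1 - x)) ^ k ∂μ = x) : 1 - annealed μ p ≤ x := by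
  refine le_of_tendsto' (tendsto_un μ p) fun n => ?_
  induction n with
  | zero =>
    rw [un_zero]
    exact hx0
  | succ n ih =>
    rw [un_succ, ← hx]
    have h1 := phi_mem p (un_nonneg μ p n) (un_le_one μ p n)
    have h2 := phi_mem p hx0 hx1
    refine integral_mono (pow_integrable μ h1.1 h1.2) (pow_integrable μ h2.1 h2.2) fun k => ?_
    refine pow_le_pow_left₀ h1.1 ?_ k
    have := p.2.1
    nlinarith

/-- The implicit equation. -/
theorem implicit (hI : Integrable (fun k : ℕ => (k : ℝ)) μ) (p : unitInterval)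
    (hp : 1 ≤ (∫ k : ℕ, (k : ℝ) ∂μ) * p) :
    psi μ (p * annealed μ p) = (∫ k : ℕ, (k : ℝ) ∂μ) - 1 / p := by
  set m := ∫ k : ℕ, (k : ℝ) ∂μ with hm
  have hp0 : (0 : ℝ) < p := by
    rcases eq_or_lt_of_le p.2.1 with h | h
    · rw [← h] at hp
      norm_num at hp
    · exact h
  have hp1 : (p : ℝ) ≤ 1 := p.2.2
  have hg0 := annealed_nonneg μ (p : ℝ)
  have hg1 := annealed_le_one μ p
  -- a solution of the equation
  have hle1 : m - 1 / p ≤ psi μ 1 := by
    have h1 := psi_mul μ hI (s := 1) zero_le_one le_rfl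
    have h2 : 0 ≤ ∫ k : ℕ, (1 - (1 : ℝ)) ^ k ∂μ := integral_nonneg fun k => by
      simp only [sub_self]
      positivity
    have h3 : (1 : ℝ) ≤ 1 / p := by
      rw [le_div_iff₀ hp0]
      linarith
    rw [← hm] at h1
    linarith
  have hge0 : psi μ 0 ≤ m - 1 / p := by
    rw [psi_zero, sub_nonneg, div_le_iff₀ hp0]
    exact hp
  obtain ⟨s, hs, hseq⟩ := intermediate_value_Icc zero_le_one (psi_cont μ hI) ⟨hge0, hle1⟩
  -- it is at most `p`
  have hmul := psi_mul μ hI hs.1 hs.2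
  rw [hseq, ← hm] at hmul
  have hmul2 : s / p = 1 - ∫ k, (1 - s) ^ k ∂μ := by
    rw [← hmul]
    field_simp
    ring
  have hsp : s / p ≤ 1 := by
    have : 0 ≤ ∫ k : ℕ, (1 - s) ^ k ∂μ := integral_nonneg fun k => pow_nonneg (by linarith [hs.2]) k
    linarith
  have hsp0 : 0 ≤ s / p := div_nonneg hs.1 hp0.le
  have hsmall := smallest μ p (x := 1 - s / p) (by linarith) (by linarith) (by
    have : (p : ℝ) * (1 - (1 - s / p)) = s := by
      field_simp
      ring
    rw [this]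
    linarith)
  have hsle : s ≤ p * annealed μ p := by
    have : s / p ≤ annealed μ p := by linarith
    rw [div_le_iff₀ hp0] at this
    linarith
  -- conclusion
  rcases eq_or_lt_of_le (mul_nonneg hp0.le hg0) with h0 | h0
  · rw [← h0] at hsle ⊢
    have : s = 0 := le_antisymm hsle hs.1
    rw [← hseq, this]
  · have ht1 : (p : ℝ) * annealed μ p ≤ 1 := by nlinarith
    have h6 := psi_mul μ hI h0.le ht1
    rw [fixed μ p, ← hm] at h6
    have h7 : (p : ℝ) * annealed μ p * (m - psi μ (p * annealed μ p)) =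
        (p * annealed μ p) * (1 / p) := by
      rw [h6]
      field_simp
      ring
    have h8 := mul_left_cancel₀ h0.ne' h7
    linarith

end Q292.GWS
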