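import Mathlib
import Pool.Agent.Q292.GWS.Fixed

/-!
# The offspring law
-/

namespace Q292.GWS

open MeasureTheory ProbabilityTheory Filter Topology

/-- the atoms `2^(7^j)` -/
def lev (j : ℕ) : ℕ := 2 ^ 7 ^ j

theorem lev_zero : lev 0 = 2 := by simp [lev]

theorem lev_succ (j : ℕ) : lev (j + 1) = lev j ^ 7 := by
  unfold lev
  rw [← pow_mul, pow_succ]

theorem two_le_lev (j : ℕ) : 2 ≤ lev j := by
  have : 2 ^ 1 ≤ 2 ^ 7 ^ j := Nat.pow_le_pow_right (by norm_num) (Nat.one_le_pow _ _ (by norm_num))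
  simpa [lev] using this

theorem two_le_lev' (j : ℕ) : (2 : ℝ) ≤ lev j := by exact_mod_cast two_le_lev j

theorem lev_mono {i j : ℕ} (h : i ≤ j) : lev i ≤ lev j :=
  Nat.pow_le_pow_right (by norm_num) (Nat.pow_le_pow_right (by norm_num) h)

/-- unnormalized weights -/
noncomputable def rw0 (j : ℕ) : ℝ := (1 / 2 : ℝ) ^ j / lev j

theorem rw0_pos (j : ℕ) : 0 < rw0 j := by
  have := two_le_lev' j
  unfold rw0
  positivity

theorem geo : HasSum (fun j : ℕ => (1 / 2 : ℝ) ^ j) 2 := hasSum_geometric_two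

theorem rw0_le (j : ℕ) : rw0 j ≤ (1 / 2 : ℝ) ^ j * (1 / 2) := by
  have h := two_le_lev' j
  unfold rw0
  rw [div_eq_mul_one_div]
  exact mul_le_mul_of_nonneg_left (one_div_le_one_div_of_le (by norm_num) h) (by positivity)

theorem rw0_summable : Summable rw0 :=
  Summable.of_nonneg_of_le (fun j => (rw0_pos j).le) rw0_le (geo.summable.mul_right _)

/-- the total mass -/
noncomputable def tot : ℝ := ∑' j, rw0 j

theorem tot_ge : 1 / 2 ≤ tot := by
  have h := rw0_summable.le_tsum 0 fun j _ => (rw0_pos j).le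
  have h1 : rw0 0 = 1 / 2 := by
    simp [rw0, lev_zero]
  rw [h1] at h
  exact h

theorem tot_le : tot ≤ 1 := by
  have h := rw0_summable.hasSum
  have h1 := geo.mul_right (1 / 2 : ℝ)
  have h2 := hasSum_le rw0_le h h1
  have h3 : (2 : ℝ) * (1 / 2) = 1 := by norm_num
  rw [h3] at h2
  exact h2

/-- normalizing constant -/
noncomputable def cc : ℝ := 1 / tot

theorem cc_ge : 1 ≤ cc := by
  have := tot_ge
  unfold cc
  rw [le_div_iff₀ (by linarith)]
  linarith [tot_le]

theorem cc_le : cc ≤ 2 := by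
  have := tot_ge
  unfold cc
  rw [div_le_iff₀ (by linarith)]
  linarith

/-- the weights -/
noncomputable def w (j : ℕ) : ℝ := cc * (1 / 2 : ℝ) ^ j / lev j

theorem w_eq (j : ℕ) : w j = cc * rw0 j := by
  unfold w rw0
  ring

theorem w_pos (j : ℕ) : 0 < w j := by
  rw [w_eq]
  exact mul_pos (by linarith [cc_ge]) (rw0_pos j)

theorem w_hasSum : HasSum w 1 := by
  have h := rw0_summable.hasSum.mul_left cc
  have h1 : cc * ∑' j, rw0 j = 1 := by
    have := tot_ge
    change 1 / tot * tot = 1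
    field_simp
  rw [h1] at h
  exact h.congr_fun fun j => w_eq j

theorem w_mul_lev (j : ℕ) : w j * lev j = cc * (1 / 2 : ℝ) ^ j := by
  have := two_le_lev' j
  unfold w
  field_simp

/-- the offspring law -/
noncomputable def law : Measure ℕ :=
  Measure.sum fun j => ENNReal.ofReal (w j) • Measure.dirac (lev j)

theorem law_prob : IsProbabilityMeasure law := by
  constructor
  unfold law
  rw [Measure.sum_apply _ MeasurableSet.univ]
  simp only [Measure.smul_apply, measure_univ, smul_eq_mul, mul_one]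
  rw [← ENNReal.ofReal_tsum_of_nonneg (fun j => (w_pos j).le) w_hasSum.summable,
    w_hasSum.tsum_eq, ENNReal.ofReal_one]

theorem law_integrable : Integrable (fun k : ℕ => (k : ℝ)) law := by
  refine ⟨(measurable_of_countable _).aestronglyMeasurable, ?_⟩
  rw [hasFiniteIntegral_iff_norm]
  unfold law
  rw [lintegral_sum_measure]
  simp only [lintegral_smul_measure, lintegral_dirac, smul_eq_mul]
  have h1 : ∀ j, ENNReal.ofReal (w j) * ENNReal.ofReal ‖((lev j : ℕ) : ℝ)‖ =
      ENNReal.ofReal (cc * (1 / 2 : ℝ) ^ j) := by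
    intro j
    rw [← ENNReal.ofReal_mul (w_pos j).le, Real.norm_eq_abs, abs_of_nonneg (Nat.cast_nonneg _),
      w_mul_lev]
  simp only [h1]
  have hc := cc_ge
  rw [← ENNReal.ofReal_tsum_of_nonneg (fun j => by positivity) (geo.summable.mul_left cc)]
  exact ENNReal.ofReal_lt_top

theorem law_hasSum {f : ℕ → ℝ} (hf : Integrable f law) :
    HasSum (fun j => w j * f (lev j)) (∫ k, f k ∂law) := by
  have h := hasSum_integral_measure (μ := fun j => ENNReal.ofReal (w j) • Measure.dirac (lev j)) hf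
  refine h.congr_fun fun j => ?_
  rw [integral_smul_measure, integral_dirac, ENNReal.toReal_ofReal (w_pos j).le, smul_eq_mul]

/-- the mean -/
theorem law_mean : ∫ k : ℕ, (k : ℝ) ∂law = 2 * cc := by
  have h := law_hasSum law_integrable
  have h1 := geo.mul_left cc
  have h2 := h.unique (h1.congr_fun fun j => w_mul_lev j)
  rw [h2]
  ring

theorem mean_gt : 2 ≤ ∫ k : ℕ, (k : ℝ) ∂law := by
  rw [law_mean]
  linarith [cc_ge]

theorem psi_hasSum {s : ℝ} (hs : 0 ≤ s) (ht : s ≤ 1) :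
    HasSum (fun j => w j * hk (lev j) s) (psi law s) := by
  have h := law_hasSum (f := fun k => hk k s) (hk_integrable law law_integrable hs ht)
  exact h

theorem psi_diff {s t : ℝ} (hs : 0 ≤ s) (hst : s ≤ t) (ht : t ≤ 1) :
    HasSum (fun j => w j * (hk (lev j) t - hk (lev j) s)) (psi law t - psi law s) := by
  have h := (psi_hasSum (hs.trans hst) ht).sub (psi_hasSum hs (hst.trans ht))
  exact h.congr_fun fun j => by ring

theorem w_zero_ge : 1 / 2 ≤ w 0 := by
  have := cc_ge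
  unfold w
  rw [lev_zero]
  norm_num
  linarith

/-- lower bound on increments -/
theorem psi_incr {s t : ℝ} (hs : 0 ≤ s) (hst : s ≤ t) (ht : t ≤ 1) :
    (t - s) / 2 ≤ psi law t - psi law s := by
  have h := psi_diff hs hst ht
  have h1 := le_hasSum h 0 fun j _ => mul_nonneg (w_pos j).le
    (sub_nonneg.2 (hk_mono (lev j) hst ht))
  rw [lev_zero, hk_two, hk_two] at h1
  have h2 := mul_le_mul_of_nonneg_right w_zero_ge (sub_nonneg.2 hst)
  linarith

/-- lower bound on `ψ` -/
theorem psi_ge {s : ℝ} (hs : 0 < s) (ht : s ≤ 1) (j : ℕ) :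
    w j * (lev j - 1 / s) ≤ psi law s := by
  have h1 := le_hasSum (psi_hasSum hs.le ht) j fun i _ => mul_nonneg (w_pos i).le
    (hk_nonneg (lev i) hs.le ht)
  exact (mul_le_mul_of_nonneg_left (hk_ge (lev j) hs ht) (w_pos j).le).trans h1

/-- upper bound on increments -/
theorem psi_upper {s t : ℝ} (hs : 0 < s) (hst : s ≤ t) (ht : t ≤ 1) (i : ℕ) :
    psi law t - psi law s ≤ 4 * lev i * (t - s) + 4 / (lev (i + 1) * s) := by
  have h := psi_diff hs.le hst ht
  have h1 : HasSum (fun j : ℕ => (1 / 2 : ℝ) ^ j * (2 * lev i * (t - s) +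
      2 / (lev (i + 1) * s))) (2 * (2 * lev i * (t - s) + 2 / (lev (i + 1) * s))) :=
    geo.mul_right _
  have h2 : 2 * (2 * (lev i : ℝ) * (t - s) + 2 / (lev (i + 1) * s)) =
      4 * lev i * (t - s) + 4 / (lev (i + 1) * s) := by ring
  rw [h2] at h1
  refine hasSum_le (fun j => ?_) h h1
  have hts : 0 ≤ t - s := sub_nonneg.2 hst
  have hc := cc_le
  have hc1 := cc_ge
  have hli := two_le_lev' i
  have hli1 := two_le_lev' (i + 1)
  have hlj := two_le_lev' j
  rcases le_or_gt j i with hj | hj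
  · have h3 := mul_le_mul_of_nonneg_left (hk_lip (lev j) hs.le hst ht) (w_pos j).le
    have h4 : w j * ((lev j : ℝ) ^ 2 * (t - s)) = (cc * (1 / 2 : ℝ) ^ j) * (lev j * (t - s)) := by
      rw [← w_mul_lev]
      ring
    have h5 : (lev j : ℝ) ≤ lev i := by exact_mod_cast lev_mono hj
    have h6 : (cc * (1 / 2 : ℝ) ^ j) * (lev j * (t - s)) ≤
        (2 * (1 / 2 : ℝ) ^ j) * (lev i * (t - s)) := by gcongr
    have h7 : 0 ≤ (1 / 2 : ℝ) ^ j * (2 / (lev (i + 1) * s)) := by positivity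
    calc w j * (hk (lev j) t - hk (lev j) s) ≤ w j * ((lev j : ℝ) ^ 2 * (t - s)) := h3
      _ = (cc * (1 / 2 : ℝ) ^ j) * (lev j * (t - s)) := h4
      _ ≤ (2 * (1 / 2 : ℝ) ^ j) * (lev i * (t - s)) := h6
      _ ≤ (1 / 2 : ℝ) ^ j * (2 * lev i * (t - s) + 2 / (lev (i + 1) * s)) := by
        rw [mul_add]
        have : (2 * (1 / 2 : ℝ) ^ j) * (lev i * (t - s)) =
          (1 / 2 : ℝ) ^ j * (2 * lev i * (t - s)) := by ring
        linarith
  · have h3 := mul_le_mul_of_nonneg_left (hk_diff (lev j) hs hst ht) (w_pos j).le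
    have h5 : (lev (i + 1) : ℝ) ≤ lev j := by exact_mod_cast lev_mono hj
    have h4 : w j * (1 / s) = cc * (1 / 2 : ℝ) ^ j / (lev j * s) := by
      unfold w
      field_simp
    have h6 : cc * (1 / 2 : ℝ) ^ j / (lev j * s) ≤
        2 * (1 / 2 : ℝ) ^ j / (lev (i + 1) * s) := by gcongr
    have h7 : 0 ≤ (1 / 2 : ℝ) ^ j * (2 * lev i * (t - s)) := by positivity
    calc w j * (hk (lev j) t - hk (lev j) s) ≤ w j * (1 / s) := h3
      _ = cc * (1 / 2 : ℝ) ^ j / (lev j * s) := h4
      _ ≤ 2 * (1 / 2 : ℝ) ^ j / (lev (i + 1) * s) := h6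
      _ ≤ (1 / 2 : ℝ) ^ j * (2 * lev i * (t - s) + 2 / (lev (i + 1) * s)) := by
        rw [mul_add]
        have : 2 * (1 / 2 : ℝ) ^ j / (lev (i + 1) * s) =
          (1 / 2 : ℝ) ^ j * (2 / (lev (i + 1) * s)) := by ring
        linarith

end Q292.GWS
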