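import Mathlib
import Pool.Agent.Q292.GWS.Law

/-!
# Expansion without smoothness
-/

namespace Q292.GWS

open MeasureTheory ProbabilityTheory Filter Topology

/-- Second differences of a `C²` function. -/
theorem second_diff {H : ℝ → ℝ} {a : ℝ} (ha : 0 < a) (hH : ContDiffOn ℝ 2 H (Set.Icc 0 a)) :
    ∃ C : ℝ, 0 ≤ C ∧ ∀ x h, 0 < h → 0 ≤ x - h → x + h ≤ a →
      H (x + h) + H (x - h) - 2 * H x ≤ C * h ^ 2 := by
  have hU : UniqueDiffOn ℝ (Set.Icc 0 a) := uniqueDiffOn_Icc ha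
  have hD : ContDiffOn ℝ 1 (derivWithin H (Set.Icc 0 a)) (Set.Icc 0 a) :=
    hH.derivWithin hU (by norm_num)
  have hDD := hD.continuousOn_derivWithin hU le_rfl
  obtain ⟨C, hC⟩ := isCompact_Icc.exists_bound_of_continuousOn hDD
  have hC0 : 0 ≤ C := (norm_nonneg _).trans (hC 0 ⟨le_rfl, ha.le⟩)
  have hLip : ∀ x ∈ Set.Icc 0 a, ∀ y ∈ Set.Icc 0 a,
      ‖derivWithin H (Set.Icc 0 a) y - derivWithin H (Set.Icc 0 a) x‖ ≤ C * ‖y - x‖ := by
    intro x hx y hy
    exact Convex.norm_image_sub_le_of_norm_derivWithin_le (hD.differentiableOn (by norm_num)) hC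
      (convex_Icc 0 a) hx hy
  have hdiff : DifferentiableOn ℝ H (Set.Icc 0 a) := hH.differentiableOn (by norm_num)
  have hmvt : ∀ x y, 0 ≤ x → x < y → y ≤ a → ∃ c ∈ Set.Ioo x y,
      H y - H x = derivWithin H (Set.Icc 0 a) c * (y - x) := by
    intro x y hx hxy hy
    have h1 : ContinuousOn H (Set.Icc x y) :=
      hH.continuousOn.mono (Set.Icc_subset_Icc hx hy)
    have h2 : ∀ c ∈ Set.Ioo x y, HasDerivAt H (derivWithin H (Set.Icc 0 a) c) c := by
      intro c hc
      have hc' : c ∈ Set.Ioo 0 a := ⟨lt_of_le_of_lt hx hc.1, lt_of_lt_of_le hc.2 hy⟩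
      exact (hdiff c (Set.Ioo_subset_Icc_self hc')).hasDerivWithinAt.hasDerivAt
        (Icc_mem_nhds hc'.1 hc'.2)
    obtain ⟨c, hc, h3⟩ := exists_hasDerivAt_eq_slope H _ hxy h1 h2
    refine ⟨c, hc, ?_⟩
    rw [h3]
    have : y - x ≠ 0 := by linarith [sub_pos.2 hxy]
    field_simp
  refine ⟨2 * C, by linarith, fun x h hh hx hxa => ?_⟩
  obtain ⟨c, hc, h1⟩ := hmvt x (x + h) (by linarith) (by linarith) hxa
  obtain ⟨d, hd, h2⟩ := hmvt (x - h) x hx (by linarith) (by linarith)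
  have h3 := hLip d ⟨by linarith [hd.1], by linarith [hd.2]⟩ c
    ⟨by linarith [hc.1], by linarith [hc.2]⟩
  rw [Real.norm_eq_abs, Real.norm_eq_abs, abs_of_nonneg (by linarith [hc.1, hd.2] : 0 ≤ c - d)] at h3
  have h4 := (le_abs_self _).trans h3
  have h5 : c - d ≤ 2 * h := by linarith [hc.2, hd.1]
  have h6 : C * (c - d) ≤ C * (2 * h) := mul_le_mul_of_nonneg_left h5 hC0
  have h7 : x + h - x = h := by ring
  have h8 : x - (x - h) = h := by ring
  rw [h7] at h1
  rw [h8] at h2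
  have h9 : H (x + h) + H (x - h) - 2 * H x = (derivWithin H (Set.Icc 0 a) c -
      derivWithin H (Set.Icc 0 a) d) * h := by
    linear_combination h1 - h2
  rw [h9]
  have h10 : derivWithin H (Set.Icc 0 a) c - derivWithin H (Set.Icc 0 a) d ≤ C * (2 * h) := by
    linarith
  calc _ ≤ C * (2 * h) * h := mul_le_mul_of_nonneg_right h10 hh.le
    _ = 2 * C * h ^ 2 := by ring

/-! ### The inverse function -/

/-- the mean of the law -/
noncomputable def mm : ℝ := ∫ k : ℕ, (k : ℝ) ∂law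

theorem mm_ge : 2 ≤ mm := mean_gt

/-- `p(x) = 1/(m-x)` -/
noncomputable def px (x : ℝ) : ℝ := 1 / (mm - x)

/-- `F(x) = p(x) g(p(x))` -/
noncomputable def FF (x : ℝ) : ℝ := px x * annealed law (px x)

theorem px_mem {x : ℝ} (hx0 : 0 ≤ x) (hx1 : x ≤ 1) : 0 < px x ∧ px x ≤ 1 := by
  have := mm_ge
  unfold px
  constructor
  · have : 0 < mm - x := by linarith
    positivity
  · rw [div_le_iff₀ (by linarith)]
    linarith

theorem FF_mem {x : ℝ} (hx0 : 0 ≤ x) (hx1 : x ≤ 1) : 0 ≤ FF x ∧ FF x ≤ 1 := by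
  have hp := px_mem hx0 hx1
  have h0 := annealed_nonneg law (px x)
  have := law_prob
  have h1 := annealed_le_one law ⟨px x, hp.1.le, hp.2⟩
  have h2 : annealed law (px x) ≤ 1 := h1
  unfold FF
  constructor
  · exact mul_nonneg hp.1.le h0
  · nlinarith [hp.1, hp.2]

theorem psi_FF {x : ℝ} (hx0 : 0 ≤ x) (hx1 : x ≤ 1) : psi law (FF x) = x := by
  have hp := px_mem hx0 hx1
  have hm := mm_ge
  have := law_prob
  have h1 : 1 ≤ mm * px x := by
    unfold px
    rw [mul_one_div, le_div_iff₀ (by linarith)]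
    linarith
  have h := implicit law law_integrable ⟨px x, hp.1.le, hp.2⟩ h1
  have h2 : psi law (px x * annealed law (px x)) = mm - 1 / px x := h
  unfold FF
  rw [h2]
  unfold px
  rw [one_div_one_div]
  ring

theorem FF_ge {x t : ℝ} (hx0 : 0 ≤ x) (hx1 : x ≤ 1) (ht1 : t ≤ 1)
    (h : psi law t ≤ x) : t ≤ FF x := by
  by_contra hcon
  push Not at hcon
  have hF := FF_mem hx0 hx1
  have h1 := psi_incr hF.1 hcon.le ht1
  rw [psi_FF hx0 hx1] at h1
  linarith

theorem FF_le {x t : ℝ} (hx0 : 0 ≤ x) (hx1 : x ≤ 1) (ht0 : 0 ≤ t)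
    (h : x ≤ psi law t) : FF x ≤ t := by
  by_contra hcon
  push Not at hcon
  have hF := FF_mem hx0 hx1
  have h1 := psi_incr ht0 hcon.le hF.2
  rw [psi_FF hx0 hx1] at h1
  linarith

/-! ### Failure of smoothness -/

theorem lev_ge (i : ℕ) : 2 ^ (i + 1) ≤ lev i := by
  unfold lev
  refine Nat.pow_le_pow_right (by norm_num) ?_
  exact Nat.succ_le_of_lt (Nat.lt_pow_self (by norm_num))

theorem lev_tendsto : Tendsto (fun i => (lev i : ℝ)) atTop atTop := by
  refine tendsto_atTop_mono (f := fun i : ℕ => (i : ℝ)) (fun i => ?_) tendsto_natCast_atTop_atTop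
  have h1 : i < 2 ^ (i + 1) := (Nat.lt_pow_self (by norm_num)).trans
    (Nat.pow_lt_pow_right (by norm_num) (Nat.lt_succ_self i))
  exact_mod_cast h1.le.trans (lev_ge i)

theorem not_classC : ¬ ClassC (annealed law) (1 / mm) 2 := by
  rintro ⟨δ, hδ, hf⟩
  have hm := mm_ge
  -- a small interval
  obtain ⟨a, ha0, ha1, haδ⟩ : ∃ a : ℝ, 0 < a ∧ a ≤ 1 ∧ px a < 1 / mm + δ := by
    have hc : ContinuousAt px 0 := by
      unfold px
      refine ContinuousAt.div continuousAt_const (by fun_prop) ?_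
      simp only [sub_zero]
      linarith
    have h0 : px 0 < 1 / mm + δ := by
      simp only [px, sub_zero]
      linarith
    have h1 := hc.eventually (gt_mem_nhds h0)
    obtain ⟨ε, hε, hball⟩ := Metric.eventually_nhds_iff.1 h1
    refine ⟨min (ε / 2) 1, by positivity, min_le_right _ _, hball ?_⟩
    rw [Real.dist_eq, sub_zero, abs_of_pos (by positivity)]
    exact lt_of_le_of_lt (min_le_left _ _) (by linarith)
  have hH : ContDiffOn ℝ 2 FF (Set.Icc 0 a) := by
    have hp : ContDiffOn ℝ 2 px (Set.Icc 0 a) := by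
      unfold px
      refine contDiffOn_const.div (contDiffOn_const.sub contDiffOn_id) ?_
      intro x hx
      have h1 : 0 < mm - x := by linarith [hx.2]
      exact h1.ne'
    have hmaps : Set.MapsTo px (Set.Icc 0 a) (Set.Ico (1 / mm) (1 / mm + δ)) := by
      intro x hx
      constructor
      · unfold px
        exact one_div_le_one_div_of_le (by linarith [hx.2]) (by linarith [hx.1])
      · refine lt_of_le_of_lt ?_ haδ
        unfold px
        exact one_div_le_one_div_of_le (by linarith) (by linarith [hx.2])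
    exact hp.mul (hf.comp hp hmaps)
  obtain ⟨C, hC0, hC⟩ := second_diff ha0 hH
  -- choose `i`
  have hpsi : Tendsto (fun i : ℕ => psi law (1 / (lev i : ℝ) ^ 5)) atTop (𝓝 0) := by
    have h1 := (psi_cont law law_integrable 0 ⟨le_rfl, zero_le_one⟩).tendsto
    rw [psi_zero] at h1
    refine h1.comp ?_
    rw [tendsto_nhdsWithin_iff]
    refine ⟨?_, Eventually.of_forall fun i => ?_⟩
    · have h2 := ((tendsto_pow_atTop (n := 5) (by norm_num)).comp lev_tendsto).inv_tendsto_atTop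
      refine h2.congr fun i => ?_
      simp
    · have := two_le_lev' i
      refine ⟨by positivity, ?_⟩
      rw [div_le_one (by positivity)]
      exact one_le_pow₀ (by linarith)
  have hsmall : Tendsto (fun i : ℕ => 8 / (lev i : ℝ) ^ 2) atTop (𝓝 0) :=
    tendsto_const_nhds.div_atTop ((tendsto_pow_atTop (n := 2) (by norm_num)).comp lev_tendsto)
  have hev := (((hpsi.add hsmall).eventually (gt_mem_nhds (show (0 : ℝ) + 0 < a by linarith))).and
    (lev_tendsto.eventually_gt_atTop (128 * C + 16))).and (eventually_ge_atTop 3)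
  obtain ⟨i, ⟨hi1, hi2⟩, hi3⟩ := hev.exists
  set n : ℝ := (lev i : ℝ) with hn
  have hn16 : 16 < n := by linarith
  have hn0 : 0 < n := by linarith
  set s : ℝ := 1 / n ^ 5 with hs
  set r : ℝ := 1 / n ^ 3 with hr
  set h : ℝ := 8 / n ^ 2 with hh
  have hs0 : 0 < s := by positivity
  have hr0 : 0 < r := by positivity
  have hh0 : 0 < h := by positivity
  have hrs : r = n ^ 2 * s := by
    rw [hr, hs]
    field_simp
  have hn2 : 256 ≤ n ^ 2 := by nlinarith
  have hsr2 : 256 * s ≤ r := by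
    rw [hrs]
    exact mul_le_mul_of_nonneg_right hn2 hs0.le
  have hsr1 : s + r ≤ 1 := by
    have h1 : r ≤ 1 / 2 := by
      rw [hr]
      apply one_div_le_one_div_of_le (by norm_num)
      nlinarith [pow_pos hn0 2]
    linarith
  have hs1 : s ≤ 1 := by linarith
  have hnn : (lev (i + 1) : ℝ) = n ^ 7 := by
    rw [lev_succ, hn]
    push_cast
    ring
  set x : ℝ := psi law s with hx
  -- the lower bound for `x`
  have hxh : h ≤ x := by
    have h1 := psi_ge hs0 hs1 (i + 1)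
    have h2 : w (i + 1) * (lev (i + 1) - 1 / s) = cc * (1 / 2 : ℝ) ^ (i + 1) * (1 - 1 / n ^ 2) := by
      rw [mul_sub, w_mul_lev]
      have h3 : w (i + 1) = cc * (1 / 2 : ℝ) ^ (i + 1) / n ^ 7 := by
        rw [w, hnn]
      rw [h3, hs]
      field_simp
    have h4 : (2 : ℝ) ^ (i + 1) ≤ n := by
      rw [hn]
      exact_mod_cast lev_ge i
    have h5 : 1 / n ≤ (1 / 2 : ℝ) ^ (i + 1) := by
      rw [one_div_pow]
      exact one_div_le_one_div_of_le (by positivity) h4
    have h6 : 1 / 2 ≤ 1 - 1 / n ^ 2 := by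
      have : 1 / n ^ 2 ≤ 1 / 2 := one_div_le_one_div_of_le (by norm_num) (by nlinarith)
      linarith
    have h7 : h ≤ 1 / n * (1 / 2) := by
      rw [hh]
      rw [div_mul_div_comm, div_le_div_iff₀ (by positivity) (by positivity)]
      nlinarith
    have h8 : 1 / n * (1 / 2) ≤ cc * (1 / 2 : ℝ) ^ (i + 1) * (1 - 1 / n ^ 2) := by
      have h9 : 1 * (1 / n) ≤ cc * (1 / 2 : ℝ) ^ (i + 1) :=
        mul_le_mul cc_ge h5 (by positivity) (by linarith [cc_ge])
      rw [one_mul] at h9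
      exact mul_le_mul h9 h6 (by norm_num) (by have := cc_ge; positivity)
    linarith
  have hx0 : 0 ≤ x := by linarith
  have hxa : x + h ≤ a := hi1.le
  have hkey := hC x h hh0 (by linarith) hxa
  -- values of `F`
  have hFx : FF x ≤ s := FF_le hx0 (by linarith) hs0.le le_rfl
  have hFxm : 0 ≤ FF (x - h) := (FF_mem (by linarith) (by linarith)).1
  have hFxp : s + r ≤ FF (x + h) := by
    refine FF_ge (by linarith) (by linarith) hsr1 ?_
    have h1 := psi_upper hs0 (show s ≤ s + r by linarith) hsr1 i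
    have h2 : 4 * (lev i : ℝ) * (s + r - s) + 4 / (lev (i + 1) * s) = h := by
      rw [hnn, ← hn, hs, hr, hh]
      field_simp
      ring
    rw [h2] at h1
    linarith
  have h1 : r - s ≤ C * h ^ 2 := by linarith
  have h2 : r / 2 ≤ r - s := by
    linarith
  have h3 : 1 / n ^ 3 / 2 ≤ C * (8 / n ^ 2) ^ 2 := by
    rw [← hr, ← hh]
    linarith
  have h4 : C * (8 / n ^ 2) ^ 2 = (128 * C / n) * (1 / n ^ 3 / 2) := by
    field_simp
    ring
  rw [h4] at h3
  have h5 : 128 * C / n < 1 := by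
    rw [div_lt_one hn0]
    linarith
  have h6 : 0 < 1 / n ^ 3 / 2 := by positivity
  nlinarith

/-! ### The expansion -/

theorem psi_sq_ge (K : ℝ) : ∃ s0 > 0, s0 ≤ 1 ∧ ∀ s, 0 < s → s < s0 → K * s ≤ psi law s ^ 2 := by
  obtain ⟨J0, hJ0⟩ := exists_nat_ge (max K 2)
  have hJK : K ≤ J0 := (le_max_left _ _).trans hJ0
  have hJ2 : (2 : ℝ) ≤ J0 := (le_max_right _ _).trans hJ0
  have hJ2' : 2 ≤ J0 := by exact_mod_cast hJ2
  have hl0 := two_le_lev' J0
  refine ⟨2 / lev J0, by positivity, ?_, ?_⟩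
  · rw [div_le_one (by positivity)]
    exact hl0
  intro s hs0 hs
  have hs1 : s ≤ 1 := hs.le.trans (by rw [div_le_one (by positivity)]; exact hl0)
  -- the smallest index
  have hex : ∃ J, 2 / s ≤ lev J := (lev_tendsto.eventually_ge_atTop (2 / s)).exists
  classical
  obtain ⟨J, hJ1, hJmin⟩ : ∃ J, 2 / s ≤ (lev J : ℝ) ∧ ∀ i < J, ¬ 2 / s ≤ (lev i : ℝ) :=
    ⟨Nat.find hex, Nat.find_spec hex, fun i hi => Nat.find_min hex hi⟩
  have hJgt : J0 < J := by
    by_contra hcon
    push Not at hcon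
    have h1 : (lev J : ℝ) ≤ lev J0 := by exact_mod_cast lev_mono hcon
    have h2 : 2 / s ≤ lev J0 := hJ1.trans h1
    rw [div_le_iff₀ hs0] at h2
    rw [lt_div_iff₀ (by positivity)] at hs
    linarith
  obtain ⟨i, rfl⟩ : ∃ i, J = i + 1 := ⟨J - 1, by omega⟩
  have hi := hJmin i (Nat.lt_succ_self i)
  push Not at hi
  have hiJ : J0 ≤ i := by omega
  have hli := two_le_lev' i
  have hli1 := two_le_lev' (i + 1)
  -- lower bound
  have h1 := psi_ge hs0 hs1 (i + 1)
  have h2 : 1 / s ≤ lev (i + 1) / 2 := by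
    have : 2 / s = 2 * (1 / s) := by ring
    linarith
  have h3 : w (i + 1) * (lev (i + 1) / 2) ≤ w (i + 1) * (lev (i + 1) - 1 / s) :=
    mul_le_mul_of_nonneg_left (by linarith) (w_pos _).le
  have h4 : w (i + 1) * (lev (i + 1) / 2) = cc * (1 / 2 : ℝ) ^ (i + 1) / 2 := by
    rw [← w_mul_lev]
    ring
  have h5 : (1 / 2 : ℝ) ^ (i + 2) ≤ psi law s := by
    have h6 : 1 * (1 / 2 : ℝ) ^ (i + 1) ≤ cc * (1 / 2 : ℝ) ^ (i + 1) :=
      mul_le_mul_of_nonneg_right cc_ge (by positivity)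
    have h7 : (1 / 2 : ℝ) ^ (i + 2) = 1 * (1 / 2 : ℝ) ^ (i + 1) / 2 := by ring
    rw [h7]
    linarith
  have h8 : ((1 / 2 : ℝ) ^ (i + 2)) ^ 2 ≤ psi law s ^ 2 := pow_le_pow_left₀ (by positivity) h5 2
  refine le_trans ?_ h8
  -- `K s ≤ 4^{-(i+2)}`
  have hlev : 2 ^ (1 + 6 * i) ≤ lev i := by
    unfold lev
    refine Nat.pow_le_pow_right (by norm_num) ?_
    have := one_add_mul_le_pow (R := ℤ) (a := 6) (by norm_num) i
    have h9 : (1 + 6 * i : ℤ) ≤ 7 ^ i := by
      have h10 : (1 : ℤ) + (i : ℤ) * 6 ≤ (1 + 6) ^ i := this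
      norm_num at h10 ⊢
      linarith
    exact_mod_cast h9
  have hlevR : (2 : ℝ) ^ (1 + 6 * i) ≤ lev i := by exact_mod_cast hlev
  have hs2 : s < 2 / lev i := by
    rw [lt_div_iff₀ (by positivity)]
    rw [lt_div_iff₀ hs0] at hi
    linarith
  have hs3 : s ≤ 2 / (2 : ℝ) ^ (1 + 6 * i) :=
    hs2.le.trans (div_le_div_of_nonneg_left (by norm_num) (by positivity) hlevR)
  have hK : K ≤ (2 : ℝ) ^ (4 * i - 4) := by
    have h9 : (J0 : ℝ) ≤ (2 : ℝ) ^ (4 * i - 4) := by
      have h10 : J0 < 2 ^ J0 := Nat.lt_pow_self (by norm_num)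
      have h11 : 2 ^ J0 ≤ 2 ^ (4 * i - 4) := Nat.pow_le_pow_right (by norm_num) (by omega)
      exact_mod_cast h10.le.trans h11
    linarith
  calc K * s ≤ (2 : ℝ) ^ (4 * i - 4) * (2 / (2 : ℝ) ^ (1 + 6 * i)) :=
        mul_le_mul hK hs3 hs0.le (by positivity)
    _ = ((1 / 2 : ℝ) ^ (i + 2)) ^ 2 := by
      obtain ⟨k, rfl⟩ : ∃ k, i = k + 2 := ⟨i - 2, by omega⟩
      have h9 : 4 * (k + 2) - 4 = 4 * k + 4 := by omega
      have h10 : 1 + 6 * (k + 2) = 6 * k + 13 := by ring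
      rw [h9, h10, ← pow_mul, one_div_pow]
      have h11 : (2 : ℝ) ^ (6 * k + 13) = 2 ^ (4 * k + 4) * 2 * 2 ^ (2 * k + 8) := by
        rw [← pow_succ, ← pow_add]
        congr 1
        ring
      have h12 : (k + 2 + 2) * 2 = 2 * k + 8 := by ring
      rw [h11, h12]
      field_simp

theorem expansion : HasExpansion (annealed law) (1 / mm) 2 := by
  refine ⟨fun _ => 0, ?_⟩
  simp only [zero_mul, Finset.sum_const_zero, sub_zero]
  have hm := mm_ge
  rw [Asymptotics.isLittleO_iff]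
  intro δ hδ
  obtain ⟨s0, hs0, hs01, hK⟩ := psi_sq_ge (mm ^ 5 / δ)
  have hε0 : 0 < min (1 / (2 * mm)) (s0 / (2 * mm ^ 2)) / 2 := by positivity
  filter_upwards [Ioo_mem_nhdsGT hε0] with ε hε
  have hεpos : 0 < ε := hε.1
  have hε1 : ε < 1 / (2 * mm) := by
    have := min_le_left (1 / (2 * mm)) (s0 / (2 * mm ^ 2))
    have h2 : 0 < 1 / (2 * mm) := by positivity
    linarith [hε.2]
  have hε2 : ε < s0 / (2 * mm ^ 2) := by
    have := min_le_right (1 / (2 * mm)) (s0 / (2 * mm ^ 2))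
    have h2 : 0 < s0 / (2 * mm ^ 2) := by positivity
    linarith [hε.2]
  set x : ℝ := mm - 1 / (1 / mm + ε) with hx
  have hpos : 0 < 1 / mm + ε := by positivity
  have hxeq : x * (1 / mm + ε) = mm * ε := by
    rw [hx]
    field_simp
    ring
  have hpx : px x = 1 / mm + ε := by
    unfold px
    rw [hx]
    have : mm - (mm - 1 / (1 / mm + ε)) = 1 / (1 / mm + ε) := by ring
    rw [this, one_div_one_div]
  have hx0 : 0 ≤ x := by
    by_contra hcon
    push Not at hcon
    have h1 : x * (1 / mm + ε) < 0 := mul_neg_of_neg_of_pos hcon hpos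
    have h2 : 0 < mm * ε := by positivity
    linarith
  have hxle : x ≤ mm ^ 2 * ε := by
    have h1 : x * (1 / mm) ≤ x * (1 / mm + ε) := mul_le_mul_of_nonneg_left (by linarith) hx0
    rw [hxeq, mul_one_div, div_le_iff₀ (by linarith)] at h1
    calc x ≤ mm * ε * mm := h1
      _ = mm ^ 2 * ε := by ring
  have hx1 : x ≤ 1 := by
    rw [lt_div_iff₀ (by positivity)] at hε2
    linarith
  have hF := FF_mem hx0 hx1
  have hpsiF := psi_FF hx0 hx1
  have hFle : FF x ≤ 2 * mm ^ 2 * ε := by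
    have h1 := psi_incr le_rfl hF.1 hF.2
    rw [hpsiF, psi_zero] at h1
    linarith
  have hFs0 : FF x < s0 := by
    rw [lt_div_iff₀ (by positivity)] at hε2
    linarith
  have hann : annealed law (1 / mm + ε) = FF x / (1 / mm + ε) := by
    unfold FF
    rw [hpx]
    field_simp
  have hann0 := annealed_nonneg law (1 / mm + ε)
  rw [Real.norm_eq_abs, Real.norm_eq_abs, abs_of_nonneg hann0, abs_of_nonneg (by positivity)]
  have hann1 : annealed law (1 / mm + ε) ≤ mm * FF x := by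
    rw [hann, div_le_iff₀ hpos]
    have h1 : mm * FF x * (1 / mm + ε) = FF x + mm * FF x * ε := by
      field_simp
    rw [h1]
    have : 0 ≤ mm * FF x * ε := mul_nonneg (mul_nonneg (by linarith) hF.1) hεpos.le
    linarith
  have hFsq : mm ^ 5 / δ * FF x ≤ (mm ^ 2 * ε) ^ 2 := by
    rcases eq_or_lt_of_le hF.1 with h0 | h0
    · rw [← h0, mul_zero]
      positivity
    · have h1 := hK _ h0 hFs0
      rw [hpsiF] at h1
      exact h1.trans (pow_le_pow_left₀ hx0 hxle 2)
  have h1 : mm * FF x = (mm ^ 5 / δ * FF x) * (δ / mm ^ 4) := by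
    field_simp
  calc annealed law (1 / mm + ε) ≤ mm * FF x := hann1
    _ = (mm ^ 5 / δ * FF x) * (δ / mm ^ 4) := h1
    _ ≤ (mm ^ 2 * ε) ^ 2 * (δ / mm ^ 4) := mul_le_mul_of_nonneg_right hFsq (by positivity)
    _ = δ * ε ^ 2 := by
      field_simp

end Q292.GWS
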